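import Pool.Agent.H30.PF.Targets

/-!
Square roots of `2` modulo an odd number (module RT).
-/

set_option autoImplicit false

open Finset Real

namespace Pool.Agent.H65.PF

open Pool.Agent.H30.PF

private lemma rt_coprime {d : ℕ} (hd : Odd d) {a : ℕ} (h : a ^ 2 % d = 2 % d) :
    Nat.Coprime a d := by
  refine Nat.Coprime.symm (Nat.coprime_of_dvd (fun q hq hqd hqa => ?_))
  have h1 : a ^ 2 ≡ 2 [MOD d] := h
  have h2 : a ^ 2 ≡ 2 [MOD q] := h1.of_dvd hqd
  have h3 : q ∣ a ^ 2 := dvd_pow hqa (by norm_num)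
  have h4 : q ∣ 2 := (h2.dvd_iff (dvd_refl q)).mp h3
  have h5 : q = 2 := (Nat.prime_dvd_prime_iff_eq hq Nat.prime_two).mp h4
  subst h5
  exact (Nat.not_even_iff_odd.mpr hd) (even_iff_two_dvd.mpr hqd)

private lemma rt_s8 {d : ℕ} (hd : Odd d) {a : ℕ} (h : a ^ 2 % d = 2 % d) :
    ∀ q ∈ d.primeFactors, S8 q := by
  intro q hq
  have hqp : q.Prime := Nat.prime_of_mem_primeFactors hq
  have hqd : q ∣ d := Nat.dvd_of_mem_primeFactors hq
  have h1 : a ^ 2 ≡ 2 [MOD d] := h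
  have h2 : a ^ 2 ≡ 2 [MOD q] := h1.of_dvd hqd
  have hq2 : q ≠ 2 := by
    rintro rfl
    exact (Nat.not_even_iff_odd.mpr hd) (even_iff_two_dvd.mpr hqd)
  have : Fact q.Prime := ⟨hqp⟩
  have h3 : ((a : ZMod q)) ^ 2 = 2 := by
    have := (ZMod.natCast_eq_natCast_iff _ _ _).mpr h2
    push_cast at this
    exact this
  have h4 : IsSquare (2 : ZMod q) := ⟨(a : ZMod q), by rw [← h3, sq]⟩
  exact (ZMod.exists_sq_eq_two_iff hq2).mp h4

/-- roots of `2` in `range d` -/
private def Rt (d : ℕ) : Finset ℕ := (range d).filter (fun a => a ^ 2 % d = 2 % d)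

private lemma mem_Rt {d a : ℕ} : a ∈ Rt d ↔ a < d ∧ a ^ 2 % d = 2 % d := by
  simp [Rt]

private lemma rt_pow {p n : ℕ} (hp : p.Prime) (hn : 0 < n) (hodd : Odd (p ^ n)) :
    (Rt (p ^ n)).card ≤ 2 ^ (p ^ n).primeFactors.card := by
  rw [Nat.primeFactors_prime_pow hn.ne' hp, card_singleton, pow_one]
  rcases (Rt (p ^ n)).eq_empty_or_nonempty with h0 | ⟨b, hb⟩
  · rw [h0]; simp
  have hb' := mem_Rt.mp hb
  have hcop : Nat.Coprime b (p ^ n) := rt_coprime hodd hb'.2
  have hbp : Nat.Coprime b p := Nat.Coprime.coprime_dvd_right (dvd_pow_self p hn.ne') hcop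
  have hp2 : p ≠ 2 := by
    rintro rfl
    exact (Nat.not_even_iff_odd.mpr hodd) (even_iff_two_dvd.mpr (dvd_pow_self 2 hn.ne'))
  have hpndvd : ¬ p ∣ b := fun h => by
    have := (Nat.Prime.coprime_iff_not_dvd hp).mp hbp.symm
    exact this h
  have hb0 : b ≠ 0 := by
    rintro rfl
    exact hpndvd (dvd_zero p)
  have hsub : Rt (p ^ n) ⊆ {b, p ^ n - b} := by
    intro a ha
    have ha' := mem_Rt.mp ha
    have h1 : a ^ 2 ≡ b ^ 2 [MOD p ^ n] := (show a ^ 2 ≡ 2 [MOD p ^ n] from ha'.2).trans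
      (show b ^ 2 ≡ 2 [MOD p ^ n] from hb'.2).symm
    have h2 : ((p ^ n : ℕ) : ℤ) ∣ (b : ℤ) ^ 2 - (a : ℤ) ^ 2 := by
      have := Nat.modEq_iff_dvd.mp h1
      push_cast at this ⊢
      exact this
    have h3 : ((p : ℤ)) ^ n ∣ ((b : ℤ) - a) * ((b : ℤ) + a) := by
      have e : ((b : ℤ) - a) * ((b : ℤ) + a) = (b : ℤ) ^ 2 - (a : ℤ) ^ 2 := by ring
      rw [e]
      push_cast at h2
      exact h2
    have hpZ : Prime (p : ℤ) := Nat.prime_iff_prime_int.mp hp
    rw [mem_insert, mem_singleton]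
    by_cases hA : (p : ℤ) ∣ (b : ℤ) - a
    · have hB : ¬ (p : ℤ) ∣ (b : ℤ) + a := by
        intro hB
        have h4 : (p : ℤ) ∣ 2 * (b : ℤ) := by
          have := dvd_add hA hB
          have e : (b : ℤ) - a + (b + a) = 2 * b := by ring
          rwa [e] at this
        rcases hpZ.dvd_or_dvd h4 with h5 | h5
        · have h6 : p ∣ 2 := by exact_mod_cast h5
          exact hp2 ((Nat.prime_dvd_prime_iff_eq hp Nat.prime_two).mp h6)
        · exact hpndvd (by exact_mod_cast h5)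
      have h5 : ((p : ℤ)) ^ n ∣ (b : ℤ) - a := hpZ.pow_dvd_of_dvd_mul_right n hB h3
      left
      have h6 : ((p ^ n : ℕ) : ℤ) ∣ (b : ℤ) - a := by push_cast; exact h5
      have h7 : a ≡ b [MOD p ^ n] := Nat.modEq_iff_dvd.mpr h6
      exact Nat.ModEq.eq_of_lt_of_lt h7 ha'.1 hb'.1
    · have h5 : ((p : ℤ)) ^ n ∣ (b : ℤ) + a := hpZ.pow_dvd_of_dvd_mul_left n hA h3
      right
      have h6 : p ^ n ∣ b + a := by exact_mod_cast h5
      obtain ⟨c, hc⟩ := h6
      have h8 : b + a < p ^ n * 2 := by omega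
      have h9 : c < 2 := by
        rw [hc] at h8
        exact lt_of_mul_lt_mul_left h8 (Nat.zero_le _)
      have h10 : c ≠ 0 := by
        rintro rfl
        omega
      have h11 : c = 1 := by omega
      rw [h11, mul_one] at hc
      omega
  calc (Rt (p ^ n)).card ≤ ({b, p ^ n - b} : Finset ℕ).card := card_le_card hsub
    _ ≤ 2 := card_le_two

private lemma rt_mul {m n : ℕ} (hm : m ≠ 0) (hn : n ≠ 0) (hmn : Nat.Coprime m n) :
    (Rt (m * n)).card ≤ (Rt m).card * (Rt n).card := by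
  rw [← card_product]
  refine card_le_card_of_injOn (fun a => (a % m, a % n)) ?_ ?_
  · intro a ha
    have ha' := mem_Rt.mp (mem_coe.mp ha)
    have h1 : a ^ 2 ≡ 2 [MOD m * n] := ha'.2
    have key : ∀ k : ℕ, k ≠ 0 → k ∣ m * n → a % k ∈ Rt k := by
      intro k hk hkd
      refine mem_Rt.mpr ⟨Nat.mod_lt _ (Nat.pos_of_ne_zero hk), ?_⟩
      have h2 : a ^ 2 ≡ 2 [MOD k] := h1.of_dvd hkd
      have h3 : (a % k) ^ 2 ≡ a ^ 2 [MOD k] := (Nat.mod_modEq a k).pow 2
      exact h3.trans h2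
    exact mem_coe.mpr (mem_product.mpr ⟨key m hm (dvd_mul_right m n), key n hn (dvd_mul_left n m)⟩)
  · intro a ha b hb hab
    have ha' := mem_Rt.mp (mem_coe.mp ha)
    have hb' := mem_Rt.mp (mem_coe.mp hb)
    have h1 : a % m = b % m := congrArg Prod.fst hab
    have h2 : a % n = b % n := congrArg Prod.snd hab
    have h3 : a ≡ b [MOD m * n] := (Nat.modEq_and_modEq_iff_modEq_mul hmn).mp ⟨h1, h2⟩
    exact Nat.ModEq.eq_of_lt_of_lt h3 ha'.1 hb'.1

private lemma rt_card (d : ℕ) : Odd d → (Rt d).card ≤ 2 ^ d.primeFactors.card := by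
  induction d using Nat.recOnPosPrimePosCoprime with
  | zero => intro h; simp at h
  | one =>
    intro _
    refine le_trans (card_filter_le _ _) ?_
    simp
  | prime_pow p n hp hn => exact rt_pow hp hn
  | coprime a b ha hb hab iha ihb =>
    intro h
    have hao : Odd a := (Nat.odd_mul.mp h).1
    have hbo : Odd b := (Nat.odd_mul.mp h).2
    calc (Rt (a * b)).card ≤ (Rt a).card * (Rt b).card := rt_mul (by omega) (by omega) hab
      _ ≤ 2 ^ a.primeFactors.card * 2 ^ b.primeFactors.card :=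
          Nat.mul_le_mul (iha hao) (ihb hbo)
      _ = 2 ^ (a * b).primeFactors.card := by
          rw [Nat.Coprime.primeFactors_mul hab,
            card_union_of_disjoint (Nat.Coprime.disjoint_primeFactors hab), pow_add]

theorem rt : T_RT := by
  intro d hd
  exact ⟨rt_card d hd, fun a ha => ⟨rt_coprime hd ha, rt_s8 hd ha⟩⟩

end Pool.Agent.H65.PF
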