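import Pool.Agent.H30.PF.Targets

/-!
Divisor sum of `G` (module SG).
-/

set_option autoImplicit false

open Finset Real

namespace Pool.Agent.H65.PF

open Pool.Agent.H30.PF ArithmeticFunction ArithmeticFunction.zeta

private lemma G_mul (z : ℝ) {m n : ℕ} (h : Nat.Coprime m n) :
    G z (m * n) = G z m * G z n := by
  unfold G
  rw [Nat.Coprime.primeFactors_mul h, Finset.prod_union (Nat.Coprime.disjoint_primeFactors h)]
  congr 1
  · refine Finset.prod_congr rfl (fun q hq => ?_)
    rw [Nat.factorization_eq_of_coprime_left h (Nat.mem_primeFactors_iff_mem_primeFactorsList.mp hq)]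
  · refine Finset.prod_congr rfl (fun q hq => ?_)
    rw [Nat.factorization_eq_of_coprime_right h
      (Nat.mem_primeFactors_iff_mem_primeFactorsList.mp hq)]

private lemma G_one (z : ℝ) : G z 1 = 1 := by simp [G]

private lemma G_pow (z : ℝ) {p : ℕ} (hp : p.Prime) (i : ℕ) :
    G z (p ^ (i + 1)) = z ^ (i + 1) - z ^ i := by
  unfold G
  rw [Nat.primeFactors_prime_pow (Nat.succ_ne_zero i) hp, Finset.prod_singleton,
    hp.factorization_pow]
  simp

private lemma len_mul {m n : ℕ} (hm : m ≠ 0) (hn : n ≠ 0) :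
    (m * n).primeFactorsList.length = m.primeFactorsList.length + n.primeFactorsList.length := by
  rw [(Nat.perm_primeFactorsList_mul hm hn).length_eq, List.length_append]

/-- `G z` as an arithmetic function -/
private noncomputable def FG (z : ℝ) : ArithmeticFunction ℝ :=
  ⟨fun n => if n = 0 then 0 else G z n, by simp⟩

/-- `z ^ Ω` as an arithmetic function -/
private noncomputable def FO (z : ℝ) : ArithmeticFunction ℝ :=
  ⟨fun n => if n = 0 then 0 else z ^ n.primeFactorsList.length, by simp⟩

private lemma FG_apply (z : ℝ) (n : ℕ) : FG z n = if n = 0 then 0 else G z n := rfl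

private lemma FO_apply (z : ℝ) (n : ℕ) :
    FO z n = if n = 0 then 0 else z ^ n.primeFactorsList.length := rfl

private lemma FG_mult (z : ℝ) : (FG z).IsMultiplicative := by
  refine ⟨by simp [FG_apply, G_one], ?_⟩
  intro m n h
  rw [FG_apply, FG_apply, FG_apply]
  rcases eq_or_ne m 0 with rfl | hm
  · simp
  rcases eq_or_ne n 0 with rfl | hn
  · simp
  rw [if_neg (Nat.mul_ne_zero hm hn), if_neg hm, if_neg hn, G_mul z h]

private lemma FO_mult (z : ℝ) : (FO z).IsMultiplicative := by
  refine ⟨by simp [FO_apply], ?_⟩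
  intro m n h
  rw [FO_apply, FO_apply, FO_apply]
  rcases eq_or_ne m 0 with rfl | hm
  · simp
  rcases eq_or_ne n 0 with rfl | hn
  · simp
  rw [if_neg (Nat.mul_ne_zero hm hn), if_neg hm, if_neg hn, len_mul hm hn, pow_add]

private lemma conv (z : ℝ) : FG z * (ζ : ArithmeticFunction ℝ) = FO z := by
  refine (IsMultiplicative.eq_iff_eq_on_prime_powers _
    ((FG_mult z).mul isMultiplicative_zeta.natCast) _ (FO_mult z)).mpr ?_
  intro p i hp
  rw [coe_mul_zeta_apply, Nat.sum_divisors_prime_pow hp, Finset.sum_range_succ', FO_apply,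
    if_neg (pow_ne_zero i hp.ne_zero), Nat.Prime.primeFactorsList_pow hp, List.length_replicate]
  have h1 : ∀ j ∈ Finset.range i, FG z (p ^ (j + 1)) = z ^ (j + 1) - z ^ j := by
    intro j _
    rw [FG_apply, if_neg (pow_ne_zero _ hp.ne_zero), G_pow z hp]
  rw [Finset.sum_congr rfl h1, Finset.sum_range_sub (fun j => z ^ j), FG_apply]
  simp [G_one]

theorem sg : T_SG := by
  intro z n hn
  have h := congrArg (fun f : ArithmeticFunction ℝ => f n) (conv z)
  simp only [coe_mul_zeta_apply, FO_apply, if_neg hn] at h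
  rw [← h]
  refine Finset.sum_congr rfl (fun d hd => ?_)
  rw [FG_apply, if_neg (Nat.pos_of_mem_divisors hd).ne']

end Pool.Agent.H65.PF
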